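import Mathlib

/-!
# The cubic map `φ t = t^3 - 3 t` and its iterates

A prime `p ≠ 3` dividing `φ^e(t) ± 1` is `± 1` modulo `3^(e+1)`.
-/

set_option autoImplicit false

namespace Pool.Agent.TwinForm99

open Function

/-- the cubic map -/
def phi {R : Type*} [CommRing R] (t : R) : R := t ^ 3 - 3 * t

theorem phi_add_inv {F : Type*} [Field F] (z : F) (hz : z ≠ 0) :
    phi (z + z⁻¹) = z ^ 3 + (z ^ 3)⁻¹ := by
  unfold phi
  field_simp
  ring

theorem iter_add_inv {F : Type*} [Field F] (e : ℕ) (z : F) (hz : z ≠ 0) :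
    phi^[e] (z + z⁻¹) = z ^ (3 ^ e) + (z ^ (3 ^ e))⁻¹ := by
  induction e with
  | zero => simp
  | succ e ih =>
    rw [Function.iterate_succ_apply', ih, phi_add_inv _ (pow_ne_zero _ hz), ← pow_mul, pow_succ]

theorem iter_cast {F : Type*} [Field F] (e : ℕ) (t : ℤ) :
    ((phi^[e] t : ℤ) : F) = phi^[e] (t : F) := by
  induction e with
  | zero => simp
  | succ e ih =>
    rw [Function.iterate_succ_apply', Function.iterate_succ_apply', ← ih]
    simp [phi]

theorem iter_neg (e : ℕ) (t : ℤ) : phi^[e] (-t) = - phi^[e] t := by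
  induction e with
  | zero => simp
  | succ e ih =>
    rw [Function.iterate_succ_apply', Function.iterate_succ_apply', ih]
    simp only [phi]; ring

/-- prime divisors of `φ^e(t) + 1`, over an algebraically closed field -/
theorem prime_dvd_add_one_aux (F : Type) [Field F] [IsAlgClosed F] (e : ℕ) (t : ℤ) (p : ℕ)
    [CharP F p] (hp : p.Prime) (hp3 : p ≠ 3)
    (h : (p : ℤ) ∣ phi^[e] t + 1) :
    3 ^ (e + 1) ∣ p - 1 ∨ 3 ^ (e + 1) ∣ p + 1 := by
  have : Fact p.Prime := ⟨hp⟩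
  -- root of z^2 - t z + 1
  obtain ⟨z, hz⟩ : ∃ z : F, z ^ 2 - (t : F) * z + 1 = 0 := by
    have hdeg : (Polynomial.X ^ 2 - Polynomial.C (t : F) * Polynomial.X + 1 :
        Polynomial F).degree ≠ 0 := by
      have : (Polynomial.X ^ 2 - Polynomial.C (t : F) * Polynomial.X + 1 :
        Polynomial F) = Polynomial.C 1 * Polynomial.X ^ 2 + Polynomial.C (-(t : F)) * Polynomial.X +
          Polynomial.C 1 := by
        simp; ring
      rw [this, Polynomial.degree_quadratic one_ne_zero]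
      decide
    obtain ⟨z, hz⟩ := IsAlgClosed.exists_root _ hdeg
    refine ⟨z, ?_⟩
    simpa [Polynomial.IsRoot] using hz
  have hz0 : z ≠ 0 := by
    rintro rfl
    simp at hz
  have ht : (t : F) = z + z⁻¹ := by
    field_simp
    linear_combination -hz
  -- w = z^(3^e)
  set w : F := z ^ (3 ^ e) with hw
  have hw0 : w ≠ 0 := pow_ne_zero _ hz0
  have hdvd : ((phi^[e] t + 1 : ℤ) : F) = 0 := by
    rw [CharP.intCast_eq_zero_iff F p]
    exact h
  have hw1 : w + w⁻¹ + 1 = 0 := by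
    have := hdvd
    push_cast at this
    rw [iter_cast, ht, iter_add_inv e z hz0] at this
    exact this
  have hw2 : w ^ 2 + w + 1 = 0 := by
    have := congrArg (· * w) hw1
    simp only [zero_mul] at this
    rw [← this]; field_simp; ring
  have hw3 : w ^ 3 = 1 := by linear_combination (w - 1) * hw2
  have hwne : w ≠ 1 := by
    intro h1
    rw [h1] at hw2
    have h3 : ((3 : ℕ) : F) = 0 := by push_cast; linear_combination hw2
    rw [CharP.cast_eq_zero_iff F p] at h3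
    exact hp3 ((Nat.prime_dvd_prime_iff_eq hp Nat.prime_three).1 h3)
  have hord : orderOf z = 3 ^ (e + 1) := by
    apply orderOf_eq_prime_pow
    · exact hwne
    · rw [pow_succ, pow_mul]; exact hw3
  -- Frobenius
  have hzp : z ^ p = z ∨ z ^ p = z⁻¹ := by
    have h1 : z ^ p + (z ^ p)⁻¹ = z + z⁻¹ := by
      have h2 : (z + z⁻¹) ^ p = z ^ p + (z⁻¹) ^ p := add_pow_char z z⁻¹ p
      have h3 : ((t : F)) ^ p = (t : F) := by
        have h4 : (p : ℤ) ∣ t ^ p - t := by
          rw [← ZMod.intCast_zmod_eq_zero_iff_dvd]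
          push_cast
          rw [ZMod.pow_card, sub_self]
        have h5 : ((t ^ p - t : ℤ) : F) = 0 := (CharP.intCast_eq_zero_iff F p _).2 h4
        push_cast at h5
        exact sub_eq_zero.1 h5
      rw [← inv_pow, ← h2, ← ht, h3]
    have hzp0 : z ^ p ≠ 0 := pow_ne_zero _ hz0
    have h5 : (z ^ p - z) * (z ^ p - z⁻¹) = 0 := by
      have h6 : (z ^ p) ^ 2 + 1 = (z + z⁻¹) * z ^ p := by
        rw [← h1]; field_simp
      have h7 : z * z⁻¹ = 1 := mul_inv_cancel₀ hz0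
      linear_combination h6 + h7
    rcases mul_eq_zero.1 h5 with h | h
    · left; exact sub_eq_zero.1 h
    · right; exact sub_eq_zero.1 h
  rcases hzp with h | h
  · left
    rw [← hord]
    apply orderOf_dvd_of_pow_eq_one
    have h1 : z ^ (p - 1) * z = z := by
      rw [← pow_succ, Nat.sub_add_cancel hp.one_lt.le, h]
    exact mul_right_cancel₀ hz0 (by rw [h1, one_mul])
  · right
    rw [← hord]
    apply orderOf_dvd_of_pow_eq_one
    rw [pow_succ, h, inv_mul_cancel₀ hz0]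

theorem prime_dvd_add_one (e : ℕ) (t : ℤ) (p : ℕ) (hp : p.Prime) (hp3 : p ≠ 3)
    (h : (p : ℤ) ∣ phi^[e] t + 1) :
    3 ^ (e + 1) ∣ p - 1 ∨ 3 ^ (e + 1) ∣ p + 1 := by
  have : Fact p.Prime := ⟨hp⟩
  have : CharP (AlgebraicClosure (ZMod p)) p := inferInstance
  exact prime_dvd_add_one_aux (AlgebraicClosure (ZMod p)) e t p hp hp3 h

theorem zmod_of_prime (e : ℕ) (p : ℕ) (hp : p.Prime)
    (h : 3 ^ (e + 1) ∣ p - 1 ∨ 3 ^ (e + 1) ∣ p + 1) :
    (p : ZMod (3 ^ (e + 1))) = 1 ∨ (p : ZMod (3 ^ (e + 1))) = -1 := by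
  rcases h with h | h
  · left
    have h1 : ((p - 1 : ℕ) : ZMod (3 ^ (e + 1))) = 0 := (ZMod.natCast_eq_zero_iff _ _).2 h
    rw [Nat.cast_sub hp.one_lt.le, Nat.cast_one] at h1
    exact sub_eq_zero.1 h1
  · right
    have h1 : ((p + 1 : ℕ) : ZMod (3 ^ (e + 1))) = 0 := (ZMod.natCast_eq_zero_iff _ _).2 h
    push_cast at h1
    exact eq_neg_of_add_eq_zero_left h1

/-- if all prime factors are `± 1`, the number is `± 1` -/
theorem zmod_of_all (M : ℕ) (d : ℕ) (hd : d ≠ 0)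
    (h : ∀ p : ℕ, p.Prime → p ∣ d → (p : ZMod M) = 1 ∨ (p : ZMod M) = -1) :
    (d : ZMod M) = 1 ∨ (d : ZMod M) = -1 := by
  induction d using Nat.recOnMul with
  | zero => exact absurd rfl hd
  | one => left; simp
  | prime p hp => exact h p hp dvd_rfl
  | mul a b iha ihb =>
    have ha : a ≠ 0 := by rintro rfl; simp at hd
    have hb : b ≠ 0 := by rintro rfl; simp at hd
    have h1 := iha ha (fun p hp hpa => h p hp (hpa.mul_right b))
    have h2 := ihb hb (fun p hp hpb => h p hp (hpb.mul_left a))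
    push_cast
    rcases h1 with h1 | h1 <;> rcases h2 with h2 | h2 <;> simp [h1, h2]

theorem phi_dvd (g t : ℤ) (h : g ∣ t) (e : ℕ) : g ∣ phi^[e] t := by
  induction e with
  | zero => simpa using h
  | succ e ih =>
    rw [Function.iterate_succ_apply']
    unfold phi
    exact dvd_sub (dvd_pow ih (by norm_num)) (Dvd.dvd.mul_left ih 3)

theorem phi_mono (t u : ℤ) (ht : 2 ≤ t) (htu : t < u) : phi t < phi u := by
  unfold phi
  have : 0 < (u - t) * (u ^ 2 + u * t + t ^ 2 - 3) := by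
    apply mul_pos (by linarith)
    nlinarith
  nlinarith

theorem phi_ge (t : ℤ) (ht : 2 ≤ t) : t ≤ phi t := by
  unfold phi
  nlinarith [mul_nonneg (by linarith : (0 : ℤ) ≤ t - 2) (by linarith : (0 : ℤ) ≤ t),
    mul_nonneg (mul_nonneg (by linarith : (0 : ℤ) ≤ t - 2) (by linarith : (0 : ℤ) ≤ t))
      (by linarith : (0 : ℤ) ≤ t + 2)]

theorem iter_ge (e : ℕ) (t : ℤ) (ht : 2 ≤ t) : t ≤ phi^[e] t := by
  induction e with
  | zero => simp
  | succ e ih =>
    rw [Function.iterate_succ_apply']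
    exact ih.trans (phi_ge _ (ht.trans ih))

/-- core: divisors of `6n ± 1` -/
theorem dvd_key (e : ℕ) (t : ℤ) (ht : 3 ∣ t) (σ : ℤ) (hσ : σ = 1 ∨ σ = -1) (d : ℤ) (hd0 : 0 < d)
    (hd : d ∣ phi^[e] t + σ) :
    (3 : ℤ) ^ (e + 1) ∣ d - 1 ∨ (3 : ℤ) ^ (e + 1) ∣ d + 1 := by
  obtain ⟨D, rfl⟩ := Int.eq_ofNat_of_zero_le hd0.le
  have hD0 : D ≠ 0 := by rintro rfl; simp at hd0
  have key : ∀ p : ℕ, p.Prime → p ∣ D →
      (p : ZMod (3 ^ (e + 1))) = 1 ∨ (p : ZMod (3 ^ (e + 1))) = -1 := by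
    intro p hp hpD
    have hpd : (p : ℤ) ∣ phi^[e] t + σ := (Int.natCast_dvd_natCast.2 hpD).trans hd
    have hp3 : p ≠ 3 := by
      rintro rfl
      have h1 : (3 : ℤ) ∣ phi^[e] t := phi_dvd 3 t ht e
      have h2 : (3 : ℤ) ∣ σ := (Int.dvd_add_right h1).1 (by exact_mod_cast hpd)
      rcases hσ with rfl | rfl <;> norm_num at h2
    apply zmod_of_prime e p hp
    rcases hσ with rfl | rfl
    · exact prime_dvd_add_one e t p hp hp3 hpd
    · apply prime_dvd_add_one e (-t) p hp hp3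
      rw [iter_neg]
      have := (dvd_neg).2 hpd
      have h2 : -(phi^[e] t + -1) = -phi^[e] t + 1 := by ring
      rwa [h2] at this
  have h1 := zmod_of_all (3 ^ (e + 1)) D hD0 key
  have hc : ((3 ^ (e + 1) : ℕ) : ℤ) = (3 : ℤ) ^ (e + 1) := by push_cast; ring
  rcases h1 with h1 | h1
  · left
    rw [← hc, ← ZMod.intCast_zmod_eq_zero_iff_dvd]
    push_cast
    rw [h1]; ring
  · right
    rw [← hc, ← ZMod.intCast_zmod_eq_zero_iff_dvd]
    push_cast
    rw [h1]; ring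

theorem three_pow_dvd_of (e : ℕ) (y : ℤ) (τ : ℤ) (hτ : τ = 1 ∨ τ = -1)
    (h : (3 : ℤ) ^ (e + 1) ∣ (6 * y + τ) - 1 ∨ (3 : ℤ) ^ (e + 1) ∣ (6 * y + τ) + 1) :
    (3 : ℤ) ^ e ∣ y := by
  have h6 : (3 : ℤ) ^ (e + 1) ∣ 6 * y := by
    have h3 : (3 : ℤ) ∣ 3 ^ (e + 1) := dvd_pow_self _ (by omega)
    rcases hτ with rfl | rfl <;> rcases h with h | h
    · simpa using h
    · have := h3.trans h; omega
    · have := h3.trans h; omega
    · simpa using h
  have h2 : (3 : ℤ) ^ e ∣ 2 * y := by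
    have : (3 : ℤ) * 3 ^ e ∣ 3 * (2 * y) := by
      have h8 : (3 : ℤ) * (2 * y) = 6 * y := by ring
      rw [h8, ← pow_succ']; exact h6
    exact (mul_dvd_mul_iff_left (by norm_num)).1 this
  exact IsCoprime.dvd_of_dvd_mul_left
    (IsCoprime.pow_left (by norm_num : IsCoprime (3 : ℤ) 2)) h2

end Pool.Agent.TwinForm99
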