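import Mathlib
import Pool.Agent.TwinForm99.CubicMap

/-!
# The quadratic map `ψ t = t^2 - 2` and its iterates

An odd prime dividing `ψ^a(t)` is `± 1` modulo `2^(a+2)`; an odd prime dividing `ψ^a(t) - 1`
is `± 1` modulo `2^(a+1)`.
-/

set_option autoImplicit false

namespace Pool.Agent.TwinForm99

open Function

/-- the quadratic map -/
def psi {R : Type*} [CommRing R] (t : R) : R := t ^ 2 - 2

theorem psi_add_inv {F : Type*} [Field F] (z : F) (hz : z ≠ 0) :
    psi (z + z⁻¹) = z ^ 2 + (z ^ 2)⁻¹ := by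
  unfold psi
  field_simp
  ring

theorem psi_iter_add_inv {F : Type*} [Field F] (a : ℕ) (z : F) (hz : z ≠ 0) :
    psi^[a] (z + z⁻¹) = z ^ (2 ^ a) + (z ^ (2 ^ a))⁻¹ := by
  induction a with
  | zero => simp
  | succ a ih =>
    rw [Function.iterate_succ_apply', ih, psi_add_inv _ (pow_ne_zero _ hz), ← pow_mul, pow_succ]

theorem psi_iter_cast {F : Type*} [Field F] (a : ℕ) (t : ℤ) :
    ((psi^[a] t : ℤ) : F) = psi^[a] (t : F) := by
  induction a with
  | zero => simp
  | succ a ih =>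
    rw [Function.iterate_succ_apply', Function.iterate_succ_apply', ← ih]
    simp [psi]

theorem exists_root (F : Type) [Field F] [IsAlgClosed F] (t : ℤ) :
    ∃ z : F, z ≠ 0 ∧ (t : F) = z + z⁻¹ := by
  obtain ⟨z, hz⟩ : ∃ z : F, z ^ 2 - (t : F) * z + 1 = 0 := by
    have hdeg : (Polynomial.X ^ 2 - Polynomial.C (t : F) * Polynomial.X + 1 :
        Polynomial F).degree ≠ 0 := by
      have : (Polynomial.X ^ 2 - Polynomial.C (t : F) * Polynomial.X + 1 :
        Polynomial F) = Polynomial.C 1 * Polynomial.X ^ 2 + Polynomial.C (-(t : F)) * Polynomial.X +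
          Polynomial.C 1 := by
        simp; ring
      rw [this, Polynomial.degree_quadratic one_ne_zero]
      decide
    obtain ⟨z, hz⟩ := IsAlgClosed.exists_root _ hdeg
    refine ⟨z, ?_⟩
    simpa [Polynomial.IsRoot] using hz
  have hz0 : z ≠ 0 := by
    rintro rfl
    simp at hz
  refine ⟨z, hz0, ?_⟩
  field_simp
  linear_combination -hz

theorem order_dvd (F : Type) [Field F] (p : ℕ) [CharP F p] (hp : p.Prime) (t : ℤ) (z : F)
    (hz0 : z ≠ 0) (ht : (t : F) = z + z⁻¹) :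
    orderOf z ∣ p - 1 ∨ orderOf z ∣ p + 1 := by
  have : Fact p.Prime := ⟨hp⟩
  have hzp : z ^ p = z ∨ z ^ p = z⁻¹ := by
    have h1 : z ^ p + (z ^ p)⁻¹ = z + z⁻¹ := by
      have h2 : (z + z⁻¹) ^ p = z ^ p + (z⁻¹) ^ p := add_pow_char z z⁻¹ p
      have h3 : ((t : F)) ^ p = (t : F) := by
        have h4 : (p : ℤ) ∣ t ^ p - t := by
          rw [← ZMod.intCast_zmod_eq_zero_iff_dvd]
          push_cast
          rw [ZMod.pow_card, sub_self]
        have h5 : ((t ^ p - t : ℤ) : F) = 0 := (CharP.intCast_eq_zero_iff F p _).2 h4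
        push_cast at h5
        exact sub_eq_zero.1 h5
      rw [← inv_pow, ← h2, ← ht, h3]
    have hzp0 : z ^ p ≠ 0 := pow_ne_zero _ hz0
    have h5 : (z ^ p - z) * (z ^ p - z⁻¹) = 0 := by
      have h6 : (z ^ p) ^ 2 + 1 = (z + z⁻¹) * z ^ p := by
        rw [← h1]; field_simp
      have h7 : z * z⁻¹ = 1 := mul_inv_cancel₀ hz0
      linear_combination h6 + h7
    rcases mul_eq_zero.1 h5 with h | h
    · left; exact sub_eq_zero.1 h
    · right; exact sub_eq_zero.1 h
  rcases hzp with h | h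
  · left
    apply orderOf_dvd_of_pow_eq_one
    have h1 : z ^ (p - 1) * z = z := by
      rw [← pow_succ, Nat.sub_add_cancel hp.one_lt.le, h]
    exact mul_right_cancel₀ hz0 (by rw [h1, one_mul])
  · right
    apply orderOf_dvd_of_pow_eq_one
    rw [pow_succ, h, inv_mul_cancel₀ hz0]

/-- prime divisors of `ψ^a(t)` -/
theorem psi_prime_dvd (a : ℕ) (t : ℤ) (p : ℕ) (hp : p.Prime) (hp2 : p ≠ 2)
    (h : (p : ℤ) ∣ psi^[a] t) :
    2 ^ (a + 2) ∣ p - 1 ∨ 2 ^ (a + 2) ∣ p + 1 := by
  have : Fact p.Prime := ⟨hp⟩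
  have hch : CharP (AlgebraicClosure (ZMod p)) p := inferInstance
  obtain ⟨z, hz0, ht⟩ := exists_root (AlgebraicClosure (ZMod p)) t
  have aux : ∀ (F : Type) [Field F] [CharP F p] (z : F), z ≠ 0 → (t : F) = z + z⁻¹ →
      orderOf z = 2 ^ (a + 2) := by
    intro F _ _ z hz0 ht
    set w : F := z ^ (2 ^ a) with hw
    have hw0 : w ≠ 0 := pow_ne_zero _ hz0
    have hdvd : ((psi^[a] t : ℤ) : F) = 0 := by
      rw [CharP.intCast_eq_zero_iff F p]; exact h
    have hw1 : w + w⁻¹ = 0 := by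
      rw [psi_iter_cast, ht, psi_iter_add_inv a z hz0] at hdvd
      exact hdvd
    have hw2 : w ^ 2 = -1 := by
      have := congrArg (· * w) hw1
      simp only [zero_mul] at this
      have h3 : (w + w⁻¹) * w = w ^ 2 + 1 := by field_simp
      rw [h3] at this
      linear_combination this
    have h2 : (2 : F) ≠ 0 := by
      intro h2
      have h3 : ((2 : ℕ) : F) = 0 := by exact_mod_cast h2
      rw [CharP.cast_eq_zero_iff F p] at h3
      exact hp2 ((Nat.prime_dvd_prime_iff_eq hp Nat.prime_two).1 h3)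
    have h3 : orderOf z = 2 ^ ((a + 1) + 1) := by
      apply orderOf_eq_prime_pow
      · rw [pow_succ, pow_mul, ← hw, hw2]
        intro h4
        apply h2
        linear_combination -h4
      · rw [pow_succ, pow_succ, pow_mul, pow_mul, ← hw, hw2]
        norm_num
    rw [h3]
  rw [← aux _ z hz0 ht]
  exact order_dvd _ p hp t z hz0 ht

/-- prime divisors of `ψ^a(t) - 1` -/
theorem psi_prime_dvd_sub_one (a : ℕ) (t : ℤ) (p : ℕ) (hp : p.Prime) (hp2 : p ≠ 2)
    (h : (p : ℤ) ∣ psi^[a] t - 1) :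
    2 ^ (a + 1) ∣ p - 1 ∨ 2 ^ (a + 1) ∣ p + 1 := by
  have : Fact p.Prime := ⟨hp⟩
  have hch : CharP (AlgebraicClosure (ZMod p)) p := inferInstance
  obtain ⟨z, hz0, ht⟩ := exists_root (AlgebraicClosure (ZMod p)) t
  have aux : ∀ (F : Type) [Field F] [CharP F p] (z : F), z ≠ 0 → (t : F) = z + z⁻¹ →
      2 ^ (a + 1) ∣ orderOf z := by
    intro F _ _ z hz0 ht
    set w : F := z ^ (2 ^ a) with hw
    have hw0 : w ≠ 0 := pow_ne_zero _ hz0
    have hdvd : ((psi^[a] t - 1 : ℤ) : F) = 0 := by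
      rw [CharP.intCast_eq_zero_iff F p]; exact h
    have hw1 : w + w⁻¹ - 1 = 0 := by
      push_cast at hdvd
      rw [psi_iter_cast, ht, psi_iter_add_inv a z hz0] at hdvd
      exact hdvd
    have hw2 : w ^ 2 - w + 1 = 0 := by
      have := congrArg (· * w) hw1
      simp only [zero_mul] at this
      have h3 : (w + w⁻¹ - 1) * w = w ^ 2 - w + 1 := by field_simp; ring
      rw [h3] at this
      exact this
    have hw3 : w ^ 3 = -1 := by linear_combination (w + 1) * hw2
    have h2 : (2 : F) ≠ 0 := by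
      intro h2
      have h3 : ((2 : ℕ) : F) = 0 := by exact_mod_cast h2
      rw [CharP.cast_eq_zero_iff F p] at h3
      exact hp2 ((Nat.prime_dvd_prime_iff_eq hp Nat.prime_two).1 h3)
    have h3 : orderOf (z ^ 3) = 2 ^ (a + 1) := by
      apply orderOf_eq_prime_pow
      · rw [← pow_mul, mul_comm, pow_mul, ← hw, hw3]
        intro h4
        apply h2
        linear_combination -h4
      · rw [← pow_mul, pow_succ, show 3 * (2 ^ a * 2) = 2 ^ a * (3 * 2) by ring, pow_mul, ← hw,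
          pow_mul, hw3]
        norm_num
    rw [← h3]
    exact orderOf_pow_dvd 3
  have h1 := aux _ z hz0 ht
  rcases order_dvd _ p hp t z hz0 ht with h | h
  · exact Or.inl (h1.trans h)
  · exact Or.inr (h1.trans h)

/-- primes that are `± 1` -/
theorem zmod_of_prime' (M : ℕ) (p : ℕ) (hp : p.Prime)
    (h : M ∣ p - 1 ∨ M ∣ p + 1) :
    (p : ZMod M) = 1 ∨ (p : ZMod M) = -1 := by
  rcases h with h | h
  · left
    have h1 : ((p - 1 : ℕ) : ZMod M) = 0 := (ZMod.natCast_eq_zero_iff _ _).2 h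
    rw [Nat.cast_sub hp.one_lt.le, Nat.cast_one] at h1
    exact sub_eq_zero.1 h1
  · right
    have h1 : ((p + 1 : ℕ) : ZMod M) = 0 := (ZMod.natCast_eq_zero_iff _ _).2 h
    push_cast at h1
    exact eq_neg_of_add_eq_zero_left h1

/-- a positive integer all of whose prime factors are `± 1` modulo `M` is `± 1` modulo `M` -/
theorem int_of_all (M : ℕ) (s : ℤ) (hs : 0 < s)
    (h : ∀ p : ℕ, p.Prime → (p : ℤ) ∣ s → M ∣ p - 1 ∨ M ∣ p + 1) :
    (M : ℤ) ∣ s - 1 ∨ (M : ℤ) ∣ s + 1 := by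
  obtain ⟨D, rfl⟩ := Int.eq_ofNat_of_zero_le hs.le
  have hD0 : D ≠ 0 := by rintro rfl; simp at hs
  have h1 := zmod_of_all M D hD0 (fun p hp hpD =>
    zmod_of_prime' M p hp (h p hp (Int.natCast_dvd_natCast.2 hpD)))
  rcases h1 with h1 | h1
  · left
    rw [← ZMod.intCast_zmod_eq_zero_iff_dvd]
    push_cast
    rw [h1]; ring
  · right
    rw [← ZMod.intCast_zmod_eq_zero_iff_dvd]
    push_cast
    rw [h1]; ring

end Pool.Agent.TwinForm99
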