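import Mathlib
import Pool.Agent.TwinForm99.CubicMap
import Pool.Agent.TwinForm99.QuadMap
import Pool.Agent.BrunHooley.Positive

/-!
# Sieving the values of iterated maps

For a map `f` on `ℤ` given by iterating a polynomial map of degree `D`, we bound the number of
residues `m` with `p ∣ f^e(c (m+1)) - a`.
-/

set_option autoImplicit false

namespace Pool.Agent.TwinForm99

open Function Finset

/-! ### fibres of the iterates over a field -/

theorem phi_fiber {F : Type*} [Field F] [DecidableEq F] [Fintype F] (c : F) :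
    (Finset.univ.filter (fun t : F => phi t = c)).card ≤ 3 := by
  classical
  set P : Polynomial F := Polynomial.X ^ 3 - 3 * Polynomial.X - Polynomial.C c with hP
  have h3 : (3 : Polynomial F) = Polynomial.C 3 := (map_ofNat Polynomial.C 3).symm
  have hP0 : P ≠ 0 := by
    intro h
    have h1 : P.coeff 3 = 0 := by rw [h]; simp
    have h2 : P.coeff 3 = 1 := by
      rw [hP, h3]
      simp
    rw [h2] at h1
    exact one_ne_zero h1
  have hdeg : P.natDegree ≤ 3 := by
    rw [hP, h3]
    compute_degree
  have hsub : Finset.univ.filter (fun t : F => phi t = c) ⊆ P.roots.toFinset := by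
    intro t ht
    simp only [Finset.mem_filter, Finset.mem_univ, true_and] at ht
    rw [Multiset.mem_toFinset, Polynomial.mem_roots hP0]
    simp only [hP, Polynomial.IsRoot.def, Polynomial.eval_sub, Polynomial.eval_pow,
      Polynomial.eval_X, Polynomial.eval_mul, Polynomial.eval_C, Polynomial.eval_ofNat]
    rw [← ht]
    unfold phi
    ring
  calc _ ≤ P.roots.toFinset.card := Finset.card_le_card hsub
    _ ≤ Multiset.card P.roots := Multiset.toFinset_card_le _
    _ ≤ P.natDegree := Polynomial.card_roots' P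
    _ ≤ 3 := hdeg

theorem phi_iter_fiber {F : Type*} [Field F] [DecidableEq F] [Fintype F] (e : ℕ) (c : F) :
    (Finset.univ.filter (fun t : F => phi^[e] t = c)).card ≤ 3 ^ e := by
  induction e generalizing c with
  | zero =>
    have h1 : Finset.univ.filter (fun t : F => phi^[0] t = c) ⊆ {c} := by
      intro t ht
      rw [Finset.mem_filter] at ht
      rw [Finset.mem_singleton]
      exact ht.2
    simpa using Finset.card_le_card h1
  | succ e ih =>
    have h1 : Finset.univ.filter (fun t : F => phi^[e + 1] t = c) =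
        (Finset.univ.filter (fun s : F => phi^[e] s = c)).biUnion
          (fun s => Finset.univ.filter (fun t : F => phi t = s)) := by
      ext t
      rw [Finset.mem_filter, Finset.mem_biUnion]
      constructor
      · rintro ⟨_, h⟩
        refine ⟨phi t, ?_, ?_⟩
        · rw [Finset.mem_filter]
          exact ⟨Finset.mem_univ _, h⟩
        · rw [Finset.mem_filter]
          exact ⟨Finset.mem_univ _, rfl⟩
      · rintro ⟨s, h1, h2⟩
        rw [Finset.mem_filter] at h1 h2
        refine ⟨Finset.mem_univ _, ?_⟩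
        rw [Function.iterate_succ_apply, h2.2]
        exact h1.2
    rw [h1]
    calc _ ≤ ∑ s ∈ Finset.univ.filter (fun s : F => phi^[e] s = c),
          (Finset.univ.filter (fun t : F => phi t = s)).card := Finset.card_biUnion_le
      _ ≤ ∑ _s ∈ Finset.univ.filter (fun s : F => phi^[e] s = c), 3 :=
          Finset.sum_le_sum (fun s _ => phi_fiber s)
      _ = (Finset.univ.filter (fun s : F => phi^[e] s = c)).card * 3 := by
          rw [Finset.sum_const, smul_eq_mul]
      _ ≤ 3 ^ e * 3 := Nat.mul_le_mul_right _ (ih c)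
      _ = 3 ^ (e + 1) := by ring

theorem phi_iter_cast (e : ℕ) (t : ℤ) (p : ℕ) :
    ((phi^[e] t : ℤ) : ZMod p) = phi^[e] (t : ZMod p) := by
  induction e with
  | zero => simp
  | succ e ih =>
    rw [Function.iterate_succ_apply', Function.iterate_succ_apply', ← ih]
    simp [phi]

/-- the sieve condition for `φ` -/
def Aphi (e : ℕ) (p m : ℕ) : Prop :=
  (p : ℤ) ∣ (phi^[e] (6 * ((m : ℤ) + 1)) + 1) * (phi^[e] (6 * ((m : ℤ) + 1)) - 1)

theorem Aphi_iff (e p m : ℕ) : Aphi e p m ↔
    (phi^[e] ((6 * ((m : ℤ) + 1) : ℤ) : ZMod p) + 1) *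
      (phi^[e] ((6 * ((m : ℤ) + 1) : ℤ) : ZMod p) - 1) = 0 := by
  unfold Aphi
  rw [← ZMod.intCast_zmod_eq_zero_iff_dvd]
  push_cast [phi_iter_cast]
  rfl

theorem Aphi_per (e : ℕ) : BrunHooley.Per (Aphi e) := by
  intro p m
  rw [Aphi_iff, Aphi_iff]
  have : ((6 * (((m + p : ℕ) : ℤ) + 1) : ℤ) : ZMod p) = ((6 * ((m : ℤ) + 1) : ℤ) : ZMod p) := by
    push_cast
    simp
  rw [this]

theorem Aphi_not_of_dvd_six (e p m : ℕ) (hp : p.Prime) (h : p ∣ 6) : ¬ Aphi e p m := by
  intro hA
  have h1 : (p : ℤ) ∣ phi^[e] (6 * ((m : ℤ) + 1)) := by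
    apply phi_dvd
    exact Dvd.dvd.mul_right (by exact_mod_cast h) _
  have h2 : (p : ℤ) ∣ (phi^[e] (6 * ((m : ℤ) + 1))) ^ 2 - 1 := by
    have : (phi^[e] (6 * ((m : ℤ) + 1)) + 1) * (phi^[e] (6 * ((m : ℤ) + 1)) - 1) =
      (phi^[e] (6 * ((m : ℤ) + 1))) ^ 2 - 1 := by ring
    unfold Aphi at hA
    rwa [this] at hA
  have h3 : (p : ℤ) ∣ 1 := by
    have := dvd_sub (dvd_pow h1 (two_ne_zero)) h2
    simpa using this
  have h4 : p ∣ 1 := by exact_mod_cast h3
  exact hp.one_lt.ne' (Nat.dvd_one.1 h4)

theorem Aphi_rho_le (e p : ℕ) (hp : p.Prime) : BrunHooley.rho (Aphi e) p ≤ 2 * 3 ^ e := by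
  classical
  have : Fact p.Prime := ⟨hp⟩
  by_cases h6 : p ∣ 6
  · have : BrunHooley.rho (Aphi e) p = 0 := by
      unfold BrunHooley.rho
      rw [Finset.card_eq_zero, Finset.filter_eq_empty_iff]
      intro m _
      exact Aphi_not_of_dvd_six e p m hp h6
    rw [this]; positivity
  · have h6' : (6 : ZMod p) ≠ 0 := by
      intro h
      apply h6
      rw [← ZMod.natCast_eq_zero_iff]
      exact_mod_cast h
    set U : Finset (ZMod p) := Finset.univ.filter (fun t : ZMod p => phi^[e] t = -1) ∪
      Finset.univ.filter (fun t : ZMod p => phi^[e] t = 1) with hU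
    have hUc : U.card ≤ 2 * 3 ^ e := by
      calc U.card ≤ _ := Finset.card_union_le _ _
        _ ≤ 3 ^ e + 3 ^ e := add_le_add (phi_iter_fiber e _) (phi_iter_fiber e _)
        _ = _ := by ring
    refine le_trans ?_ hUc
    unfold BrunHooley.rho
    apply Finset.card_le_card_of_injOn (fun m : ℕ => (((6 * ((m : ℤ) + 1) : ℤ)) : ZMod p))
    · intro m hm
      simp only [Finset.coe_filter, Finset.mem_range, Set.mem_ofPred_eq] at hm
      have h2 := (Aphi_iff e p m).1 hm.2
      rw [hU]
      simp only [Finset.coe_union, Finset.coe_filter, Finset.mem_univ, true_and, Set.mem_union,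
        Set.mem_ofPred_eq]
      rcases mul_eq_zero.1 h2 with h | h
      · left; exact eq_neg_of_add_eq_zero_left h
      · right; exact sub_eq_zero.1 h
    · intro m1 h1 m2 h2 heq
      simp only [Finset.coe_filter, Finset.mem_range, Set.mem_ofPred_eq] at h1 h2
      push_cast at heq
      have h3 : ((m1 : ℕ) : ZMod p) + 1 = (m2 : ZMod p) + 1 := mul_left_cancel₀ h6' heq
      have h4 : ((m1 : ℕ) : ZMod p) = (m2 : ZMod p) := add_right_cancel h3
      rw [ZMod.natCast_eq_natCast_iff'] at h4
      rwa [Nat.mod_eq_of_lt h1.1, Nat.mod_eq_of_lt h2.1] at h4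

theorem Aphi_dvd (e p m : ℕ) (hp : p.Prime) (h : Aphi e p m) :
    3 ^ (e + 1) ∣ p - 1 ∨ 3 ^ (e + 1) ∣ p + 1 := by
  have hp3 : p ≠ 3 := by
    rintro rfl
    exact Aphi_not_of_dvd_six e 3 m hp (by norm_num) h
  rcases (Nat.prime_iff_prime_int.1 hp).dvd_or_dvd h with h1 | h1
  · exact prime_dvd_add_one e _ p hp hp3 h1
  · apply prime_dvd_add_one e (-(6 * ((m : ℤ) + 1))) p hp hp3
    rw [iter_neg]
    have := (dvd_neg).2 h1
    have h2 : -(phi^[e] (6 * ((m : ℤ) + 1)) - 1) = -phi^[e] (6 * ((m : ℤ) + 1)) + 1 := by ring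
    rwa [h2] at this

theorem Aphi_rho_lt (e p : ℕ) (hp : p.Prime) : BrunHooley.rho (Aphi e) p < p := by
  classical
  by_cases h0 : BrunHooley.rho (Aphi e) p = 0
  · rw [h0]; exact hp.pos
  · have hex : ∃ m, Aphi e p m := by
      by_contra hcon
      push Not at hcon
      apply h0
      unfold BrunHooley.rho
      rw [Finset.card_eq_zero, Finset.filter_eq_empty_iff]
      intro m _
      exact hcon m
    obtain ⟨m, hm⟩ := hex
    have h1 := Aphi_rho_le e p hp
    have hp2 : p ≠ 2 := by
      rintro rfl
      exact Aphi_not_of_dvd_six e 2 m hp (by norm_num) hm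
    have hp3 : p ≠ 3 := by
      rintro rfl
      exact Aphi_not_of_dvd_six e 3 m hp (by norm_num) hm
    have hp5 : 5 ≤ p := by
      have h2 := hp.two_le
      have h4 : p ≠ 4 := by rintro rfl; norm_num at hp
      omega
    rcases Nat.eq_zero_or_pos e with rfl | he
    · simp at h1; omega
    · have h3 : 3 ^ (e + 1) ≤ p + 1 := by
        rcases Aphi_dvd e p m hp hm with h | h
        · have := Nat.le_of_dvd (by omega) h; omega
        · exact Nat.le_of_dvd (by omega) h
      have h4 : 3 ≤ 3 ^ e := by
        calc 3 = 3 ^ 1 := by norm_num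
          _ ≤ 3 ^ e := Nat.pow_le_pow_right (by norm_num) he
      have h5 : 3 ^ (e + 1) = 3 * 3 ^ e := by ring
      omega

/-! ### rough numbers -/

/-- a number with all prime factors `≥ z` and `< z^(k+1)` has at most `2^k` divisors -/
theorem card_divisors_le (z : ℕ) (k : ℕ) : ∀ N : ℕ, 0 < N →
    (∀ p : ℕ, p.Prime → p ∣ N → z ≤ p) → N < z ^ (k + 1) → N.divisors.card ≤ 2 ^ k := by
  induction k with
  | zero =>
    intro N hN h hlt
    have : N = 1 := by
      by_contra hne
      have h1 := h N.minFac (Nat.minFac_prime hne) (Nat.minFac_dvd N)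
      have h2 := Nat.minFac_le hN
      simp at hlt
      omega
    subst this
    simp
  | succ k ih =>
    intro N hN h hlt
    by_cases hne : N = 1
    · subst hne
      simp only [Nat.divisors_one, Finset.card_singleton]
      exact Nat.one_le_two_pow
    · set p := N.minFac with hp
      have hpp : p.Prime := Nat.minFac_prime hne
      obtain ⟨N', hN'⟩ := Nat.minFac_dvd N
      have hN'0 : 0 < N' := by
        rcases Nat.eq_zero_or_pos N' with h0 | h0
        · rw [h0] at hN'; omega
        · exact h0
      have hzp := h p hpp (Nat.minFac_dvd N)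
      have h1 : N' < z ^ (k + 1) := by
        by_contra hcon
        push Not at hcon
        have : z * z ^ (k + 1) ≤ p * N' := Nat.mul_le_mul hzp hcon
        rw [← hN', ← pow_succ'] at this
        omega
      have h2 := ih N' hN'0 (fun q hq hqN => h q hq (by rw [hN']; exact hqN.mul_left _)) h1
      have h3 : N.divisors ⊆ N'.divisors ∪ N'.divisors.image (fun d => p * d) := by
        intro d hd
        rw [Nat.mem_divisors] at hd
        rw [Finset.mem_union, Nat.mem_divisors, Finset.mem_image]
        by_cases hpd : p ∣ d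
        · right
          obtain ⟨d', rfl⟩ := hpd
          refine ⟨d', ?_, rfl⟩
          rw [Nat.mem_divisors]
          refine ⟨?_, hN'0.ne'⟩
          have h4 : p * d' ∣ p * N' := by rw [← hN']; exact hd.1
          exact (Nat.mul_dvd_mul_iff_left hpp.pos).1 h4
        · left
          refine ⟨?_, hN'0.ne'⟩
          have h4 : Nat.Coprime d p := ((Nat.Prime.coprime_iff_not_dvd hpp).2 hpd).symm
          have h5 : d ∣ p * N' := by rw [← hN']; exact hd.1
          exact h4.dvd_of_dvd_mul_left h5
      calc N.divisors.card ≤ (N'.divisors ∪ N'.divisors.image (fun d => p * d)).card :=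
            Finset.card_le_card h3
        _ ≤ N'.divisors.card + (N'.divisors.image (fun d => p * d)).card := Finset.card_union_le _ _
        _ ≤ N'.divisors.card + N'.divisors.card := Nat.add_le_add_left Finset.card_image_le _
        _ ≤ 2 ^ k + 2 ^ k := by omega
        _ = 2 ^ (k + 1) := by ring

end Pool.Agent.TwinForm99
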