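import Mathlib
import Pool.Agent.TwinForm99.SieveFamily

/-!
# Rough values of a pair of sequences periodic modulo every prime
-/

set_option autoImplicit false

namespace Pool.Agent.TwinForm99

open Function Finset

/-- the sieve condition for a pair of integer sequences -/
def Apair (Q1 Q2 : ℕ → ℤ) (p m : ℕ) : Prop := (p : ℤ) ∣ Q1 m ∨ (p : ℤ) ∣ Q2 m

theorem Apair_per (Q1 Q2 : ℕ → ℤ) (h1 : ∀ p m : ℕ, (p : ℤ) ∣ Q1 (m + p) - Q1 m)
    (h2 : ∀ p m : ℕ, (p : ℤ) ∣ Q2 (m + p) - Q2 m) : BrunHooley.Per (Apair Q1 Q2) := by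
  intro p m
  unfold Apair
  have e1 : (p : ℤ) ∣ Q1 (m + p) ↔ (p : ℤ) ∣ Q1 m := by
    constructor
    · intro h
      have := dvd_sub h (h1 p m)
      simpa using this
    · intro h
      have := dvd_add (h1 p m) h
      simpa using this
  have e2 : (p : ℤ) ∣ Q2 (m + p) ↔ (p : ℤ) ∣ Q2 m := by
    constructor
    · intro h
      have := dvd_sub h (h2 p m)
      simpa using this
    · intro h
      have := dvd_add (h2 p m) h
      simpa using this
  rw [e1, e2]

theorem rough_values (Q1 Q2 : ℕ → ℤ) (hp1 : ∀ m, 1 < Q1 m) (hp2 : ∀ m, 1 < Q2 m)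
    (h1 : ∀ p m : ℕ, (p : ℤ) ∣ Q1 (m + p) - Q1 m) (h2 : ∀ p m : ℕ, (p : ℤ) ∣ Q2 (m + p) - Q2 m)
    (κ : ℕ) (hrho : ∀ p : ℕ, p.Prime →
      BrunHooley.rho (Apair Q1 Q2) p ≤ κ ∧ BrunHooley.rho (Apair Q1 Q2) p < p)
    (C D : ℕ) (hg1 : ∀ m : ℕ, Q1 m ≤ ((C : ℤ) * (m + 1)) ^ D)
    (hg2 : ∀ m : ℕ, Q2 m ≤ ((C : ℤ) * (m + 1)) ^ D) :
    ∃ (δ : ℝ) (R : ℕ), 0 < δ ∧ ∀ X : ℤ, ∃ m : ℕ, X < Q1 m ∧
      (Q1 m).natAbs.divisors.card ≤ R ∧ (Q2 m).natAbs.divisors.card ≤ R ∧
      ∀ s : ℤ, 1 < s → (s ∣ Q1 m ∨ s ∣ Q2 m) → (Q1 m : ℝ) ^ δ < s ∧ (Q2 m : ℝ) ^ δ < s := by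
  classical
  obtain ⟨u, r0, hsieve⟩ := BrunHooley.sift_pos κ
  set k : ℕ := D * (u + C + 1) + 1 with hk
  have hk0 : 0 < k := by omega
  refine ⟨1 / (2 * k), 2 ^ k, by positivity, ?_⟩
  intro X
  set r : ℕ := max r0 (X.natAbs + 4) with hr
  have hrr0 : r0 ≤ r := le_max_left _ _
  have hra : X.natAbs + 4 ≤ r := le_max_right _ _
  set z : ℕ := 2 ^ 2 ^ r with hz
  have hz1 : 2 ^ 2 ^ 4 ≤ z := by
    apply Nat.pow_le_pow_right (by norm_num)
    exact Nat.pow_le_pow_right (by norm_num) (by omega)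
  have hz2 : 65536 ≤ z := by
    refine le_trans ?_ hz1
    norm_num
  have hzX : X.natAbs < z := by
    have h1 : r < 2 ^ r := Nat.lt_two_pow_self
    have h2 : 2 ^ r < 2 ^ 2 ^ r := Nat.lt_two_pow_self
    omega
  have hpos := hsieve r hrr0 (Apair Q1 Q2) (Apair_per Q1 Q2 h1 h2)
    (fun p hp => by
      have hpp : p.Prime := by
        simp only [BrunHooley.Pz, Finset.mem_filter] at hp
        exact hp.2
      exact hrho p hpp)
    (2 ^ (2 ^ r * u)) le_rfl
  unfold BrunHooley.sift at hpos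
  rw [Finset.card_pos] at hpos
  obtain ⟨m, hm⟩ := hpos
  rw [Finset.mem_filter, Finset.mem_range] at hm
  obtain ⟨hmM, hm2⟩ := hm
  have hprime : ∀ p : ℕ, p.Prime → ((p : ℤ) ∣ Q1 m ∨ (p : ℤ) ∣ Q2 m) → z ≤ p := by
    intro p hp hdiv
    by_contra hcon
    push Not at hcon
    have hpz : p ∈ BrunHooley.Pz r := by
      simp only [BrunHooley.Pz, Finset.mem_filter, Finset.mem_range]
      exact ⟨hcon, hp⟩
    exact hm2 p hpz hdiv
  -- size
  have hbase : ((C : ℤ) * (m + 1)) ^ D ≤ ((z ^ (D * (u + C + 1)) : ℕ) : ℤ) := by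
    have h3 : m + 1 ≤ 2 ^ (2 ^ r * u) := hmM
    have h4 : 2 ^ (2 ^ r * u) = z ^ u := by rw [hz, ← pow_mul]
    have h5 : C * (m + 1) ≤ z ^ (u + C + 1) := by
      have hC : C ≤ z ^ (C + 1) := by
        have h6 : C < 2 ^ C := Nat.lt_two_pow_self
        have h7 : 2 ^ C ≤ z ^ C := Nat.pow_le_pow_left (by omega) C
        have h8 : z ^ C ≤ z ^ (C + 1) := Nat.pow_le_pow_right (by omega) (by omega)
        omega
      calc C * (m + 1) ≤ z ^ (C + 1) * z ^ u := Nat.mul_le_mul hC (by rw [← h4]; exact h3)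
        _ = z ^ (u + C + 1) := by rw [← pow_add]; congr 1; ring
    have h6 : (C * (m + 1)) ^ D ≤ z ^ (D * (u + C + 1)) := by
      calc (C * (m + 1)) ^ D ≤ (z ^ (u + C + 1)) ^ D := Nat.pow_le_pow_left h5 D
        _ = z ^ (D * (u + C + 1)) := by rw [← pow_mul]; congr 1; ring
    have h7 : (((C * (m + 1)) ^ D : ℕ) : ℤ) ≤ ((z ^ (D * (u + C + 1)) : ℕ) : ℤ) := by
      exact_mod_cast h6
    push_cast at h7 ⊢
    exact h7
  have hsz : ∀ Q : ℤ, 1 < Q → Q ≤ ((C : ℤ) * (m + 1)) ^ D →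
      Q.natAbs ≤ z ^ (D * (u + C + 1)) := by
    intro Q hQ hle
    have := hle.trans hbase
    zify
    rw [abs_of_pos (by linarith)]
    exact_mod_cast this
  have hsz' : ∀ Q : ℤ, 1 < Q → Q ≤ ((C : ℤ) * (m + 1)) ^ D → Q.natAbs < z ^ (k + 1) := by
    intro Q hQ hle
    have h3 := hsz Q hQ hle
    have h4 : z ^ (D * (u + C + 1)) < z ^ (k + 1) := Nat.pow_lt_pow_right (by omega) (by omega)
    omega
  refine ⟨m, ?_, ?_, ?_, ?_⟩
  · -- X < Q1 m
    have h3 : (Q1 m).natAbs ≠ 1 := by have := hp1 m; omega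
    have h4 := hprime _ (Nat.minFac_prime h3) (Or.inl (by
      have := Nat.minFac_dvd (Q1 m).natAbs
      exact Int.natCast_dvd.2 this))
    have h5 := Nat.minFac_le (by have := hp1 m; omega : 0 < (Q1 m).natAbs)
    have := hp1 m
    omega
  · apply card_divisors_le z k _ (by have := hp1 m; omega) _ (hsz' _ (hp1 m) (hg1 m))
    intro p hp hd
    exact hprime p hp (Or.inl (Int.natCast_dvd.2 hd))
  · apply card_divisors_le z k _ (by have := hp2 m; omega) _ (hsz' _ (hp2 m) (hg2 m))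
    intro p hp hd
    exact hprime p hp (Or.inr (Int.natCast_dvd.2 hd))
  · intro s hs hdiv
    have hs1 : s.natAbs ≠ 1 := by omega
    have hzs : z ≤ s.natAbs := by
      have h3 : ((s.natAbs.minFac : ℕ) : ℤ) ∣ s := Int.natCast_dvd.2 (Nat.minFac_dvd _)
      have h4 := hprime _ (Nat.minFac_prime hs1) (by
        rcases hdiv with h | h
        · exact Or.inl (h3.trans h)
        · exact Or.inr (h3.trans h))
      exact h4.trans (Nat.minFac_le (by omega))
    have hzs' : (z : ℝ) ≤ s := by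
      have : (z : ℤ) ≤ s := by omega
      exact_mod_cast this
    have hz3 : (65536 : ℝ) ≤ z := by exact_mod_cast hz2
    have hz0 : (0 : ℝ) < z := by linarith
    have hkR : (0 : ℝ) < k := by exact_mod_cast hk0
    have key : ∀ Q : ℤ, 1 < Q → Q ≤ ((C : ℤ) * (m + 1)) ^ D →
        (Q : ℝ) ^ (1 / (2 * k) : ℝ) < s := by
      intro Q hQ hle
      have hn1 : (Q : ℝ) ≤ (z : ℝ) ^ k := by
        have h3 := hsz Q hQ hle
        have h4 : z ^ (D * (u + C + 1)) ≤ z ^ k := Nat.pow_le_pow_right (by omega) (by omega)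
        have h5 : Q ≤ ((z ^ k : ℕ) : ℤ) := by
          have : Q.natAbs ≤ z ^ k := h3.trans h4
          omega
        exact_mod_cast h5
      have h1 : (Q : ℝ) ^ (1 / (2 * k) : ℝ) ≤ Real.sqrt z := by
        have hQ0 : (0 : ℝ) ≤ Q := by
          have : (0 : ℤ) ≤ Q := by linarith
          exact_mod_cast this
        calc (Q : ℝ) ^ (1 / (2 * k) : ℝ) ≤ ((z : ℝ) ^ k) ^ (1 / (2 * k) : ℝ) :=
              Real.rpow_le_rpow hQ0 hn1 (by positivity)
          _ = Real.sqrt z := by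
              rw [← Real.rpow_natCast, ← Real.rpow_mul hz0.le, Real.sqrt_eq_rpow]
              congr 1
              field_simp
      have h2 : Real.sqrt z < s := by
        have h3 : 256 ≤ Real.sqrt z := by
          rw [show (256 : ℝ) = Real.sqrt 65536 by
            rw [show (65536 : ℝ) = 256 ^ 2 by norm_num, Real.sqrt_sq (by norm_num)]]
          exact Real.sqrt_le_sqrt hz3
        have h4 : Real.sqrt z * Real.sqrt z = z := Real.mul_self_sqrt hz0.le
        nlinarith
      exact lt_of_le_of_lt h1 h2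
    exact ⟨key _ (hp1 m) (hg1 m), key _ (hp2 m) (hg2 m)⟩

/-! ### counting roots -/

theorem psi_fiber {F : Type*} [Field F] [DecidableEq F] [Fintype F] (c : F) :
    (Finset.univ.filter (fun t : F => psi t = c)).card ≤ 2 := by
  classical
  set P : Polynomial F := Polynomial.X ^ 2 - Polynomial.C (2 + c) with hP
  have hP0 : P ≠ 0 := by
    intro h
    have h1 : P.coeff 2 = 0 := by rw [h]; simp
    have h2 : P.coeff 2 = 1 := by
      rw [hP]
      simp
    rw [h2] at h1
    exact one_ne_zero h1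
  have hdeg : P.natDegree ≤ 2 := by
    rw [hP]
    compute_degree
  have hsub : Finset.univ.filter (fun t : F => psi t = c) ⊆ P.roots.toFinset := by
    intro t ht
    simp only [Finset.mem_filter, Finset.mem_univ, true_and] at ht
    rw [Multiset.mem_toFinset, Polynomial.mem_roots hP0]
    simp only [hP, Polynomial.IsRoot.def, Polynomial.eval_sub, Polynomial.eval_pow,
      Polynomial.eval_X, Polynomial.eval_C]
    rw [← ht]
    unfold psi
    ring
  calc _ ≤ P.roots.toFinset.card := Finset.card_le_card hsub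
    _ ≤ Multiset.card P.roots := Multiset.toFinset_card_le _
    _ ≤ P.natDegree := Polynomial.card_roots' P
    _ ≤ 2 := hdeg

theorem psi_iter_fiber {F : Type*} [Field F] [DecidableEq F] [Fintype F] (e : ℕ) (c : F) :
    (Finset.univ.filter (fun t : F => psi^[e] t = c)).card ≤ 2 ^ e := by
  induction e generalizing c with
  | zero =>
    have h1 : Finset.univ.filter (fun t : F => psi^[0] t = c) ⊆ {c} := by
      intro t ht
      rw [Finset.mem_filter] at ht
      rw [Finset.mem_singleton]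
      exact ht.2
    simpa using Finset.card_le_card h1
  | succ e ih =>
    have h1 : Finset.univ.filter (fun t : F => psi^[e + 1] t = c) =
        (Finset.univ.filter (fun s : F => psi^[e] s = c)).biUnion
          (fun s => Finset.univ.filter (fun t : F => psi t = s)) := by
      ext t
      rw [Finset.mem_filter, Finset.mem_biUnion]
      constructor
      · rintro ⟨_, h⟩
        refine ⟨psi t, ?_, ?_⟩
        · rw [Finset.mem_filter]
          exact ⟨Finset.mem_univ _, h⟩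
        · rw [Finset.mem_filter]
          exact ⟨Finset.mem_univ _, rfl⟩
      · rintro ⟨s, h1, h2⟩
        rw [Finset.mem_filter] at h1 h2
        refine ⟨Finset.mem_univ _, ?_⟩
        rw [Function.iterate_succ_apply, h2.2]
        exact h1.2
    rw [h1]
    calc _ ≤ ∑ s ∈ Finset.univ.filter (fun s : F => psi^[e] s = c),
          (Finset.univ.filter (fun t : F => psi t = s)).card := Finset.card_biUnion_le
      _ ≤ ∑ _s ∈ Finset.univ.filter (fun s : F => psi^[e] s = c), 2 :=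
          Finset.sum_le_sum (fun s _ => psi_fiber s)
      _ = (Finset.univ.filter (fun s : F => psi^[e] s = c)).card * 2 := by
          rw [Finset.sum_const, smul_eq_mul]
      _ ≤ 2 ^ e * 2 := Nat.mul_le_mul_right _ (ih c)
      _ = 2 ^ (e + 1) := by ring

theorem psi_iter_cast' (e : ℕ) (t : ℤ) (p : ℕ) :
    ((psi^[e] t : ℤ) : ZMod p) = psi^[e] (t : ZMod p) := by
  induction e with
  | zero => simp
  | succ e ih =>
    rw [Function.iterate_succ_apply', Function.iterate_succ_apply', ← ih]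
    simp [psi]

/-- number of `m < p` with `p ∣ f(c m + b) - v`, for a map `f` with small fibres -/
theorem card_roots_le (p : ℕ) (hp : p.Prime) (c b v : ℤ) (hc : ¬ (p : ℤ) ∣ c) (B : ℕ)
    (f : ℤ → ℤ) (g : ZMod p → ZMod p) (hfg : ∀ t : ℤ, ((f t : ℤ) : ZMod p) = g (t : ZMod p))
    (S : Finset (ZMod p)) (hS : ∀ x, g x = (v : ZMod p) → x ∈ S) (hB : S.card ≤ B)
    (T : Finset ℕ) (hT : ∀ m ∈ T, m < p ∧ (p : ℤ) ∣ f (c * m + b) - v) : T.card ≤ B := by
  classical
  have : Fact p.Prime := ⟨hp⟩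
  have hc' : (c : ZMod p) ≠ 0 := by
    intro h
    apply hc
    rwa [ZMod.intCast_zmod_eq_zero_iff_dvd] at h
  refine le_trans ?_ hB
  apply Finset.card_le_card_of_injOn (fun m : ℕ => (((c * m + b : ℤ)) : ZMod p))
  · intro m hm
    have h2 := (hT m hm).2
    rw [← ZMod.intCast_zmod_eq_zero_iff_dvd] at h2
    push_cast at h2
    apply hS
    have h3 := hfg (c * m + b)
    push_cast at h3 ⊢
    rw [← h3]
    exact sub_eq_zero.1 h2
  · intro m1 h1 m2 h2 heq
    push_cast at heq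
    have h3 : (c : ZMod p) * (m1 : ZMod p) = c * (m2 : ZMod p) := add_right_cancel heq
    have h4 : ((m1 : ℕ) : ZMod p) = (m2 : ZMod p) := mul_left_cancel₀ hc' h3
    rw [ZMod.natCast_eq_natCast_iff'] at h4
    rwa [Nat.mod_eq_of_lt (hT m1 h1).1, Nat.mod_eq_of_lt (hT m2 h2).1] at h4

end Pool.Agent.TwinForm99
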